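import Pool.Agent.Run7.h90.BGK.FerC
import Pool.Agent.Run7.h878.NN.Rep

/-!
# The digits of the cofactors of the small prime factors of `n ^ n + 1`

If `n ^ n + 1` is prime and `n ≥ 2` then `n = 2 ^ (2 ^ k)`.  Let `n` be of this form and let `p` be a prime factor of `n ^ n + 1`
with `p ≤ n ^ C`.

(1) The binary digits of the cofactor `(n ^ n + 1) / p` are normal in every window: if `L ≥ n ^ δ`, then every block `w` of
`j` digits begins at `L / 2 ^ j + O(n ^ (-ε) L)` of the places of any window of `L` places.  (`n ^ n + 1` itself has two digits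
`1`; the cofactor has `(1 / 2 + O(n ^ (-ε))) n log₂ n` of them.)
(2) No sum of fewer than `(1 / 4 - n ^ (-ε)) n log₂ n` signed powers of `2` is a multiple of `(n ^ n + 1) / p`, except for the
multiples of `n ^ n + 1`.
(3) Every multiple `N` of `(n ^ n + 1) / p`, of any size, which is not a multiple of `n ^ n + 1` has at least
`(1 / 2 - o(1)) n` nonzero digits in the base `n`; precisely, if it has `z` of them, then
`(1 / 4 - n ^ (-ε)) n log₂ n ≤ ((log₂ n) / 2 + 1) z`.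
(4) For every divisor `d ≤ 2 ^ (t + 2)` of `n ^ n + 1`, prime or not, a multiple of `(n ^ n + 1) / d` but not of `n ^ n + 1` with
`z` nonzero digits in the base `n` has `n log₂ n < (2 ((log₂ n) / 2 + 1) z + 1) (t + 1)`, so that `z` is at least about
`n / t`; and a sum of `s` signed powers of `2` has `n log₂ n < (2 s + 1) (t + 1)`.

The earlier bound (`SparseMultiples` of this page, for multiples of all large divisors) is `c log n` nonzero digits.

(1) and (2) are the theorem of helper90 on the Fermat numbers (`MP_37e5fa_nt`, `CofactorsOfSmallPrimes`, this run, with the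
theorem of Bourgain, Glibichuk and Konyagin proved in `Pool/Agent/Run7/h90/BGK`), applied to `n ^ n + 1 = F_(k + 2 ^ k)`.  For
(3) and (4) every digit in the base `n` is written as a sum of at most `(log₂ n) / 2 + 1` signed powers of `2`.
-/

set_option autoImplicit false

namespace Pool.Agent.Results.MP_a70bdc_nt.CofactorDigits

open Finset

/-- the number `n = 2 ^ (2 ^ k)`, so `log₂ n = 2 ^ k` -/
def base (k : ℕ) : ℕ := 2 ^ (2 ^ k)

/-- the number `n ^ n + 1` -/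
def num (k : ℕ) : ℕ := base k ^ base k + 1

/-- The `j` binary digits of `N` at the places `i, …, i + j - 1`, read as a number less than `2 ^ j`. -/
def block (N i j : ℕ) : ℕ := N / 2 ^ i % 2 ^ j

/-- Some sum of `s` signed powers of `2` is a multiple of `c` but not a multiple of `F`. -/
def SparseMultiple (F c s : ℕ) : Prop :=
  ∃ (σ : Fin s → ℤ) (e : Fin s → ℕ), (∀ l, σ l = 1 ∨ σ l = -1) ∧
    (c : ℤ) ∣ ∑ l, σ l * 2 ^ (e l) ∧ ¬ (F : ℤ) ∣ ∑ l, σ l * 2 ^ (e l)

/-- the number of the nonzero digits of `N` in the base `n = 2 ^ (2 ^ k)` -/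
def nonzeroDigits (k N : ℕ) : ℕ := ((Nat.digits (base k) N).filter (· ≠ 0)).length

/-- The binary digits of `c` are normal in the windows of at least `n ^ δ` places, with the error `n ^ (-ε) L`. -/
def NormalDigits (k c : ℕ) (δ ε : ℝ) : Prop :=
  ∀ i₀ L j w : ℕ, (base k : ℝ) ^ δ ≤ L → i₀ + L + j ≤ 2 ^ k * base k → w < 2 ^ j →
    |(((Ico i₀ (i₀ + L)).filter fun i => block c i j = w).card : ℝ) - L / 2 ^ j| ≤ (base k : ℝ) ^ (-ε) * L

/-- The multiples of `c` which are not multiples of `n ^ n + 1` are not sums of fewer than `x` signed powers of `2`, and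
they have at least `x / ((log₂ n) / 2 + 1)` nonzero digits in the base `n`. -/
def NoSparseMultiple (k c : ℕ) (x : ℝ) : Prop :=
  (∀ s : ℕ, SparseMultiple (num k) c s → x ≤ s) ∧
  ∀ N : ℕ, c ∣ N → ¬ num k ∣ N → x ≤ (2 ^ k / 2 + 1) * nonzeroDigits k N

theorem fermat_eq (k : ℕ) : base k ^ base k + 1 = Nat.fermatNumber (k + 2 ^ k) := by
  unfold base Nat.fermatNumber
  rw [← pow_mul, ← pow_add]

theorem size_eq (k : ℕ) : 2 ^ k * base k = 2 ^ (k + 2 ^ k) := by
  unfold base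
  rw [← pow_add]

theorem base_rpow (k : ℕ) (x : ℝ) : (base k : ℝ) ^ x = (2 : ℝ) ^ ((2 : ℝ) ^ k * x) := by
  unfold base
  push_cast
  rw [← Real.rpow_natCast 2 (2 ^ k), ← Real.rpow_mul (by norm_num)]
  push_cast
  rfl

theorem cast_le (k : ℕ) : (k : ℝ) ≤ (2 : ℝ) ^ k := by
  exact_mod_cast Nat.lt_two_pow_self.le

theorem base_two (k : ℕ) (hk : 1 ≤ k) : base k = 2 ^ (2 * 2 ^ (k - 1)) := by
  unfold base
  rw [← pow_succ', Nat.sub_add_cancel hk]

/-- a multiple with `z` nonzero digits is a sum of at most `(2 ^ (k - 1) + 1) z` signed powers of `2` -/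
theorem sparse_of_digits (k N F c : ℕ) (hk : 1 ≤ k) (hc : c ∣ N) (hF : ¬ F ∣ N) :
    ∃ t : ℕ, t ≤ (2 ^ (k - 1) + 1) * nonzeroDigits k N ∧ SparseMultiple F c t := by
  have h := Pool.Agent.Run7.h878.NN.rep_digits (2 ^ (k - 1)) Nat.one_le_two_pow N
  obtain ⟨t, ht, σ, e, hσ, hs⟩ := h.family
  refine ⟨t, ?_, σ, e, hσ, ?_, ?_⟩
  · unfold nonzeroDigits
    rw [base_two k hk]
    exact ht
  · rw [hs]
    exact_mod_cast hc
  · rw [hs]
    exact_mod_cast hF

/-- **The cofactors of the small prime factors of `n ^ n + 1`.** -/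
theorem result :
    (∀ C δ : ℝ, 1 ≤ C → 0 < δ → ∃ ε : ℝ, 0 < ε ∧ ∃ k₀ : ℕ, ∀ k : ℕ, k₀ ≤ k →
      ∀ p : ℕ, p.Prime → p ∣ num k → (p : ℝ) ≤ (base k : ℝ) ^ C →
        NormalDigits k (num k / p) δ ε ∧
        NoSparseMultiple k (num k / p) ((1 / 4 - (base k : ℝ) ^ (-ε)) * (2 ^ k * base k))) ∧
    (∀ k d t : ℕ, d ∣ num k → d ≤ 2 ^ (t + 2) →
      (∀ s : ℕ, SparseMultiple (num k) (num k / d) s → 2 ^ k * base k < (2 * s + 1) * (t + 1)) ∧
      (1 ≤ k → ∀ N : ℕ, num k / d ∣ N → ¬ num k ∣ N →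
        2 ^ k * base k < (2 * ((2 ^ (k - 1) + 1) * nonzeroDigits k N) + 1) * (t + 1))) := by
  change
    (∀ C δ : ℝ, 1 ≤ C → 0 < δ → ∃ ε : ℝ, 0 < ε ∧ ∃ k₀ : ℕ, ∀ k : ℕ, k₀ ≤ k →
      ∀ p : ℕ, p.Prime → p ∣ base k ^ base k + 1 → (p : ℝ) ≤ (base k : ℝ) ^ C →
        (∀ i₀ L j w : ℕ, (base k : ℝ) ^ δ ≤ L → i₀ + L + j ≤ 2 ^ k * base k → w < 2 ^ j →
          |(((Ico i₀ (i₀ + L)).filter fun i => block ((base k ^ base k + 1) / p) i j = w).card : ℝ) - L / 2 ^ j| ≤
            (base k : ℝ) ^ (-ε) * L) ∧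
        (∀ s : ℕ, SparseMultiple (base k ^ base k + 1) ((base k ^ base k + 1) / p) s →
          (1 / 4 - (base k : ℝ) ^ (-ε)) * (2 ^ k * base k) ≤ s) ∧
        (∀ N : ℕ, (base k ^ base k + 1) / p ∣ N → ¬ base k ^ base k + 1 ∣ N →
          (1 / 4 - (base k : ℝ) ^ (-ε)) * (2 ^ k * base k) ≤ (2 ^ k / 2 + 1) * nonzeroDigits k N)) ∧
    (∀ k d t : ℕ, d ∣ base k ^ base k + 1 → d ≤ 2 ^ (t + 2) →
      (∀ s : ℕ, SparseMultiple (base k ^ base k + 1) ((base k ^ base k + 1) / d) s →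
        2 ^ k * base k < (2 * s + 1) * (t + 1)) ∧
      (1 ≤ k → ∀ N : ℕ, (base k ^ base k + 1) / d ∣ N → ¬ base k ^ base k + 1 ∣ N →
        2 ^ k * base k < (2 * ((2 ^ (k - 1) + 1) * nonzeroDigits k N) + 1) * (t + 1)))
  have hany : ∀ k d t : ℕ, d ∣ base k ^ base k + 1 → d ≤ 2 ^ (t + 2) →
      ∀ s : ℕ, SparseMultiple (base k ^ base k + 1) ((base k ^ base k + 1) / d) s →
        2 ^ k * base k < (2 * s + 1) * (t + 1) := by
    rintro k d t hd hdt s ⟨σ, e, hσ, h3, h4⟩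
    rw [fermat_eq] at hd h3 h4
    have h5 := Run7.h90.BGK.sparse_any (k + 2 ^ k) d t hd hdt univ e σ (fun l _ => hσ l) h3 h4
    rw [card_univ, Fintype.card_fin] at h5
    rw [size_eq]
    exact h5
  refine ⟨?_, ?_⟩
  · intro C δ hC hδ
    obtain ⟨ε₁, hε₁, m₁, h1⟩ := Run7.h90.BGK.digits C (δ / 2) hC (half_pos hδ)
    obtain ⟨ε₂, hε₂, m₂, h2⟩ := Run7.h90.BGK.sparse_prime C hC
    refine ⟨min ε₁ ε₂, lt_min hε₁ hε₂, max (max m₁ m₂) 1, ?_⟩
    intro k hk p hp hd hpC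
    have hk1 : 1 ≤ k := (le_max_right _ _).trans hk
    have hm1 : m₁ ≤ k + 2 ^ k := (le_max_left _ _).trans ((le_max_left _ _).trans (hk.trans (Nat.le_add_right _ _)))
    have hm2 : m₂ ≤ k + 2 ^ k := (le_max_right _ _).trans ((le_max_left _ _).trans (hk.trans (Nat.le_add_right _ _)))
    have hM : ((k + 2 ^ k : ℕ) : ℝ) = k + 2 ^ k := by push_cast; rfl
    have hk0 : (0 : ℝ) ≤ k := Nat.cast_nonneg k
    have hkk := cast_le k
    have hp2 : (0 : ℝ) < 2 ^ k := by positivity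
    have hpC' : (p : ℝ) ≤ (2 : ℝ) ^ (C * ((k + 2 ^ k : ℕ) : ℝ)) := by
      refine hpC.trans ?_
      rw [base_rpow, hM]
      apply Real.rpow_le_rpow_of_exponent_le (by norm_num)
      nlinarith
    have herr : ∀ ε' : ℝ, min ε₁ ε₂ ≤ ε' → (2 : ℝ) ^ (-(ε' * ((k + 2 ^ k : ℕ) : ℝ))) ≤ (base k : ℝ) ^ (-(min ε₁ ε₂)) := by
      intro ε' hε'
      rw [base_rpow, hM]
      apply Real.rpow_le_rpow_of_exponent_le (by norm_num)
      have h0 : 0 < min ε₁ ε₂ := lt_min hε₁ hε₂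
      nlinarith [mul_le_mul_of_nonneg_right hε' hp2.le, mul_nonneg (h0.le.trans hε') hk0]
    have hd' := hd
    rw [fermat_eq] at hd'
    have hsp : ∀ s : ℕ, SparseMultiple (base k ^ base k + 1) ((base k ^ base k + 1) / p) s →
        (1 / 4 - (base k : ℝ) ^ (-(min ε₁ ε₂))) * (2 ^ k * base k) ≤ s := by
      rintro s ⟨σ, e, hσ, h3, h4⟩
      rw [fermat_eq] at h3 h4
      have h5 := h2 (k + 2 ^ k) hm2 p hp hd' hpC' univ e σ (fun l _ => hσ l) h3 h4
      rw [card_univ, Fintype.card_fin] at h5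
      have h6 : ((2 : ℝ) ^ k * (base k : ℝ)) = (2 : ℝ) ^ (k + 2 ^ k) := by exact_mod_cast size_eq k
      rw [h6]
      refine le_trans ?_ h5
      have := herr ε₂ (min_le_right _ _)
      gcongr
    refine ⟨?_, hsp, ?_⟩
    · intro i₀ L j w hL hM' hw
      rw [size_eq] at hM'
      have hL' : (2 : ℝ) ^ (δ / 2 * ((k + 2 ^ k : ℕ) : ℝ)) ≤ L := by
        refine le_trans ?_ hL
        rw [base_rpow, hM]
        apply Real.rpow_le_rpow_of_exponent_le (by norm_num)
        nlinarith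
      have h3 := h1 (k + 2 ^ k) hm1 p hp hd' hpC' i₀ L j w hL' hM' hw
      rw [fermat_eq]
      refine h3.trans ?_
      have := herr ε₁ (min_le_left _ _)
      gcongr
    · intro N hN hN'
      obtain ⟨t, ht, hts⟩ := sparse_of_digits k N _ _ hk1 hN hN'
      refine (hsp t hts).trans ?_
      have h7 : ((2 : ℝ) ^ k / 2 + 1) = ((2 ^ (k - 1) + 1 : ℕ) : ℝ) := by
        obtain ⟨l, rfl⟩ : ∃ l, k = l + 1 := ⟨k - 1, by omega⟩
        push_cast
        rw [pow_succ]
        ring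
      rw [h7]
      exact_mod_cast ht
  · intro k d t hd hdt
    refine ⟨hany k d t hd hdt, ?_⟩
    intro hk N hN hN'
    obtain ⟨s, hs, hss⟩ := sparse_of_digits k N _ _ hk hN hN'
    refine (hany k d t hd hdt s hss).trans_le ?_
    gcongr

end Pool.Agent.Results.MP_a70bdc_nt.CofactorDigits
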