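import Pool.Agent.Run7.h878.NN.Even

/-!
# The numbers `2 ^ S ± 1`, `S` even, and the powers `n ^ t ± 1` modulo a prime `n ^ n + 1`

If `n ^ n + 1` is prime and `n ≥ 2` then `n = 2 ^ (2 ^ k)`.  Let `k ≥ 3`, `n = 2 ^ (2 ^ k)`, `N = n ^ n + 1`, and
`P = 2 ^ (k + 1) n`, the order of `2` modulo `N`.  The starting files of this page treat the bases `n ^ t ± 1` for odd
`t` (`PowerBases`) and fixed bases (`UniversalBases`).  Here `S = 2 ^ e s` is any even exponent, `1 ≤ e < k + 2 ^ k`, `s` odd.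

* (threshold) If `e ≤ k` then `N` is prime if and only if `(2 ^ S - 1) ^ (2 n ^ n / 2 ^ (2 ^ e)) = -1` modulo `N`, and if and
  only if `(2 ^ S + 1) ^ (2 n ^ n / 2 ^ (2 ^ e)) = -1`; so each of the Fermat numbers `F_1, …, F_k` is a base of a test for `N`.
  If `e > k` and `N` is prime then `2 ^ S ± 1` are `P`-th power residues of `N`.
* (powers of `n`) So if `N` is prime, `n ^ t - 1` and `n ^ t + 1` are `P`-th power residues of `N` for every even `t` which is
  not a multiple of `n` (for `n ∣ t` one of the two is `0`), and the Fermat numbers `F_j`, `k < j < k + 2 ^ k`, are.  For odd `t`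
  the exponent `2 n ^ (n - 1)` gives a test, for each such `t` and each sign.
* (index) For `e ≥ 3` the exact index: `(2 ^ S - 1) ^ (n ^ n / P) = 2 ^ E` with `4 E` congruent to an explicit series modulo
  `4 P`, and a converse; for all `e ≥ 1` the same for the fourth powers.

This is the theorem of helper302 on all Fermat numbers (`MP_37e5fa_nt`, `EvenMersenneIndex`, this run), applied to
`n ^ n + 1 = F_(k + 2 ^ k)`, where the threshold `2 ^ e ≤ m + 2` of that theorem falls exactly between the odd and the even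
powers of `n`.
-/

set_option autoImplicit false

namespace Pool.Agent.Results.MP_a70bdc_nt.EvenPowerBases

open Finset

/-- the number `n = 2 ^ (2 ^ k)` -/
def base (k : ℕ) : ℕ := 2 ^ (2 ^ k)

/-- the number `N = n ^ n + 1` -/
def num (k : ℕ) : ℕ := base k ^ base k + 1

/-- the number `P = 2 ^ (k + 1) n = 2 ^ (k + 2 ^ k + 1)`, the order of `2` modulo `N` -/
def ordTwo (k : ℕ) : ℕ := 2 ^ (k + 1) * base k

/-- `N` is prime if and only if `b ^ q = -1` modulo `N` -/
def IsTest (k b q : ℕ) : Prop := (num k).Prime ↔ (b : ZMod (num k)) ^ q = -1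

/-- if `N` is prime then `b ^ (n ^ n / P) = 1` modulo `N`, so that `b` is a `P`-th power residue -/
def IsResidue (k b : ℕ) : Prop := (num k).Prime → (b : ZMod (num k)) ^ (base k ^ base k / ordTwo k) = 1

/-- if `N` is prime then `b ^ q = 2 ^ E` modulo `N`, and this equation implies that `N` is prime if `P` does not
divide `E` -/
def HasIndex (k b q E : ℕ) : Prop :=
  ((num k).Prime → (b : ZMod (num k)) ^ q = 2 ^ E) ∧
    (¬ ordTwo k ∣ E → (b : ZMod (num k)) ^ q = 2 ^ E → (num k).Prime)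

/-- The sign `ε_s(j)`: it is `+1` if the least residue of `j / s` modulo `2 ^ (k + 2 ^ k + 1) = 2 ^ (k + 1) n` is less than
`2 ^ (k + 2 ^ k) = 2 ^ k n`, and `-1` otherwise. -/
def sgn (k s j : ℕ) : ℤ :=
  if ((j : ZMod (2 ^ (k + 2 ^ k + 1))) * (s : ZMod (2 ^ (k + 2 ^ k + 1)))⁻¹).val < 2 ^ (k + 2 ^ k) then 1 else -1

/-- `a ≡ b` modulo `2 ^ N` in the ring of rational numbers with odd denominator. -/
def Cong (N : ℕ) (a b : ℚ) : Prop :=
  ∃ d c : ℤ, Odd d ∧ (d : ℚ) * (a - b) = 2 ^ N * c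

/-- the series `s ∑_t ε_s(2 ^ e t) 2 ^ (2 ^ e t) / t` (the terms with `t > 2 (k + 2 ^ k) + 4` vanish modulo
`2 ^ (k + 2 ^ k + 3)`) -/
noncomputable def series (k e s : ℕ) : ℚ :=
  s * ∑ t ∈ Icc 1 (2 * (k + 2 ^ k) + 4), (sgn k s (2 ^ e * t) : ℚ) * (2 ^ (2 ^ e * t) / t)

theorem fermat_eq (k : ℕ) : base k ^ base k + 1 = Nat.fermatNumber (k + 2 ^ k) := by
  unfold base Nat.fermatNumber
  rw [← pow_mul, ← pow_add]

theorem pow_eq (k : ℕ) : base k ^ base k = 2 ^ (2 ^ (k + 2 ^ k)) := by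
  unfold base
  rw [← pow_mul, ← pow_add]

theorem ord_eq (k : ℕ) : 2 ^ (k + 1) * base k = 2 ^ (k + 2 ^ k + 1) := by
  unfold base
  rw [← pow_add]
  congr 1
  omega

theorem cong_iff (N k e s : ℕ) (a : ℚ) :
    Cong N a (series k e s) ↔ Pool.Agent.Run7.h878.NN.Cong N a (Pool.Agent.Run7.h878.NN.series (k + 2 ^ k) e s) := Iff.rfl

theorem exp_eq (k : ℕ) : (Nat.fermatNumber (k + 2 ^ k) - 1) / 2 ^ (k + 2 ^ k + 1) =
    base k ^ base k / (2 ^ (k + 1) * base k) := by
  rw [ord_eq, ← fermat_eq, Nat.add_sub_cancel]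

theorem exp_eq' (k : ℕ) (hk : 1 ≤ k) : (Nat.fermatNumber (k + 2 ^ k) - 1) / 2 ^ (k + 2 ^ k - 1) =
    base k ^ base k / (2 ^ (k - 1) * base k) := by
  rw [← fermat_eq, Nat.add_sub_cancel]
  congr 1
  unfold base
  rw [← pow_add]
  have h1 : 1 ≤ 2 ^ k := Nat.one_le_two_pow
  congr 1
  omega

theorem exp_test (k e : ℕ) (he : 2 ^ e ≤ 2 ^ (k + 2 ^ k) + 1) :
    2 ^ (2 ^ (k + 2 ^ k) + 1 - 2 ^ e) = 2 * base k ^ base k / 2 ^ (2 ^ e) := by
  rw [pow_eq, ← pow_succ', Nat.pow_div he (by norm_num)]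

/-- Let `k ≥ 3`, `n = 2 ^ (2 ^ k)`, `N = n ^ n + 1` and `P = 2 ^ (k + 1) n`.

(1) Let `1 ≤ e ≤ k` and let `s` be odd, `S = 2 ^ e s`. Then `N` is prime if and only if
`(2 ^ S - 1) ^ (2 n ^ n / 2 ^ (2 ^ e)) = -1` modulo `N`, and if and only if `(2 ^ S + 1) ^ (2 n ^ n / 2 ^ (2 ^ e)) = -1`.

(2) Let `k < e < k + 2 ^ k` and let `s` be odd, `S = 2 ^ e s`. If `N` is prime then
`(2 ^ S - 1) ^ (n ^ n / P) = 1` and `(2 ^ S + 1) ^ (n ^ n / P) = 1` modulo `N`.

(3) If `N` is prime then `(n ^ t - 1) ^ (n ^ n / P) = 1` and `(n ^ t + 1) ^ (n ^ n / P) = 1` modulo `N` for every even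
number `t` which is not a multiple of `n`. For every odd `t` the number `N` is prime if and only if
`(n ^ t - 1) ^ (2 n ^ (n - 1)) = -1`, and if and only if `(n ^ t + 1) ^ (2 n ^ (n - 1)) = -1` modulo `N`.

(4) Let `3 ≤ e < k + 2 ^ k` and let `s` be odd, `S = 2 ^ e s`. The congruence
`4 E ≡ s ∑_t ε_s(2 ^ e t) 2 ^ (2 ^ e t) / t` modulo `4 P` has a solution, and for each solution: if `N` is prime then
`(2 ^ S - 1) ^ (n ^ n / P) = 2 ^ E` modulo `N`, and conversely, if this equation holds and `P` does not divide `E` then `N`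
is prime.

(5) Let `1 ≤ e < k + 2 ^ k` and let `s` be odd, `S = 2 ^ e s`. The same holds for `A ≡ s ∑_t ε_s(2 ^ e t) 2 ^ (2 ^ e t) / t`
modulo `P` and `(2 ^ S - 1) ^ (4 n ^ n / P) = 2 ^ A`. -/
theorem result (k : ℕ) (hk : 3 ≤ k) :
    (∀ e s : ℕ, 1 ≤ e → e ≤ k → Odd s →
      IsTest k (2 ^ (2 ^ e * s) - 1) (2 * base k ^ base k / 2 ^ (2 ^ e)) ∧
      IsTest k (2 ^ (2 ^ e * s) + 1) (2 * base k ^ base k / 2 ^ (2 ^ e))) ∧
    (∀ e s : ℕ, k < e → e < k + 2 ^ k → Odd s →
      IsResidue k (2 ^ (2 ^ e * s) - 1) ∧ IsResidue k (2 ^ (2 ^ e * s) + 1)) ∧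
    (∀ t : ℕ, Even t → ¬ base k ∣ t → IsResidue k (base k ^ t - 1) ∧ IsResidue k (base k ^ t + 1)) ∧
    (∀ t : ℕ, Odd t →
      IsTest k (base k ^ t - 1) (2 * base k ^ (base k - 1)) ∧ IsTest k (base k ^ t + 1) (2 * base k ^ (base k - 1))) ∧
    (∀ e s : ℕ, 3 ≤ e → e < k + 2 ^ k → Odd s →
      (∃ E : ℕ, Cong (k + 2 ^ k + 3) (4 * E) (series k e s)) ∧
      ∀ E : ℕ, Cong (k + 2 ^ k + 3) (4 * E) (series k e s) →
        HasIndex k (2 ^ (2 ^ e * s) - 1) (base k ^ base k / ordTwo k) E) ∧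
    (∀ e s : ℕ, 1 ≤ e → e < k + 2 ^ k → Odd s →
      (∃ A : ℕ, Cong (k + 2 ^ k + 1) A (series k e s)) ∧
      ∀ A : ℕ, Cong (k + 2 ^ k + 1) A (series k e s) →
        HasIndex k (2 ^ (2 ^ e * s) - 1) (base k ^ base k / (2 ^ (k - 1) * base k)) A) := by
  have hk2 : k + 2 < 2 ^ k := by
    induction k, hk using Nat.le_induction with
    | base => norm_num
    | succ j hj ih => rw [pow_succ]; omega
  have h1 : ∀ e s : ℕ, 1 ≤ e → e ≤ k → Odd s →
      ((base k ^ base k + 1).Prime ↔ ((2 ^ (2 ^ e * s) - 1 : ℕ) : ZMod (base k ^ base k + 1)) ^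
        (2 * base k ^ base k / 2 ^ (2 ^ e)) = -1) ∧
      ((base k ^ base k + 1).Prime ↔ ((2 ^ (2 ^ e * s) + 1 : ℕ) : ZMod (base k ^ base k + 1)) ^
        (2 * base k ^ base k / 2 ^ (2 ^ e)) = -1) := by
    intro e s he hek hs
    have h := (Pool.Agent.Run7.h878.NN.even_index (k + 2 ^ k) e s (by omega) he (by omega) hs).2.2.2.2.1
      ((Nat.pow_le_pow_right (by norm_num) hek).trans (by omega))
    have h2 : 2 ^ e ≤ 2 ^ (k + 2 ^ k) + 1 :=
      (Nat.pow_le_pow_right (by norm_num) (by omega : e ≤ k + 2 ^ k)).trans (Nat.le_succ _)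
    rw [exp_test k e h2] at h
    rw [fermat_eq]
    exact h
  have h2 : ∀ e s : ℕ, k < e → e < k + 2 ^ k → Odd s → (base k ^ base k + 1).Prime →
      ((2 ^ (2 ^ e * s) - 1 : ℕ) : ZMod (base k ^ base k + 1)) ^
        (base k ^ base k / (2 ^ (k + 1) * base k)) = 1 ∧
      ((2 ^ (2 ^ e * s) + 1 : ℕ) : ZMod (base k ^ base k + 1)) ^
        (base k ^ base k / (2 ^ (k + 1) * base k)) = 1 := by
    intro e s hke hek hs
    have h3 : k + 2 ^ k + 3 ≤ 2 ^ e := by
      have : 2 ^ (k + 1) ≤ 2 ^ e := Nat.pow_le_pow_right (by norm_num) hke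
      rw [pow_succ] at this
      omega
    have h := (Pool.Agent.Run7.h878.NN.even_index (k + 2 ^ k) e s (by omega) (by omega) hek hs).2.2.2.2.2 h3
    rw [exp_eq] at h
    rw [fermat_eq]
    exact h
  refine ⟨h1, fun e s h3 h4 h5 => ⟨fun hN => (h2 e s h3 h4 h5 hN).1, fun hN => (h2 e s h3 h4 h5 hN).2⟩, ?_, ?_, ?_, ?_⟩
  · intro t ht hnt
    suffices hh : (num k).Prime → ((base k ^ t - 1 : ℕ) : ZMod (num k)) ^ (base k ^ base k / ordTwo k) = 1 ∧
        ((base k ^ t + 1 : ℕ) : ZMod (num k)) ^ (base k ^ base k / ordTwo k) = 1 from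
      ⟨fun hN => (hh hN).1, fun hN => (hh hN).2⟩
    intro hN
    have ht0 : t ≠ 0 := by
      rintro rfl
      exact hnt (dvd_zero _)
    obtain ⟨a, s, hs, hts⟩ := Nat.exists_eq_two_pow_mul_odd ht0
    have ha : 1 ≤ a := by
      rcases Nat.eq_zero_or_pos a with h | h
      · subst h
        rw [pow_zero, one_mul] at hts
        subst hts
        exact absurd ht (Nat.not_even_iff_odd.2 hs)
      · exact h
    have ha2 : a < 2 ^ k := by
      by_contra hcon
      push Not at hcon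
      apply hnt
      rw [hts]
      exact Dvd.dvd.mul_right (pow_dvd_pow 2 hcon) s
    have h5 := h2 (k + a) s (by omega) (by omega) hs hN
    have h6 : base k ^ t = 2 ^ (2 ^ (k + a) * s) := by
      unfold base
      rw [← pow_mul, hts, pow_add, mul_assoc]
    rw [← h6] at h5
    exact h5
  · intro t ht
    have h5 := h1 k t (by omega) le_rfl ht
    have h6 : base k ^ t = 2 ^ (2 ^ k * t) := by
      unfold base
      rw [← pow_mul]
    have h7 : 2 * base k ^ base k / 2 ^ (2 ^ k) = 2 * base k ^ (base k - 1) := by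
      have hb : 0 < base k := by unfold base; positivity
      have h8 : base k ^ base k = base k ^ (base k - 1) * base k := by
        rw [← pow_succ, Nat.sub_add_cancel hb]
      change 2 * base k ^ base k / base k = _
      rw [h8, ← mul_assoc, Nat.mul_div_cancel _ hb]
    rw [h7, ← h6] at h5
    exact h5
  · intro e s he hek hs
    have h := (Pool.Agent.Run7.h878.NN.even_index (k + 2 ^ k) e s (by omega) (by omega) hek hs).1 he
    rw [exp_eq, ← fermat_eq, ← ord_eq] at h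
    exact h
  · intro e s he hek hs
    have h := (Pool.Agent.Run7.h878.NN.even_index (k + 2 ^ k) e s (by omega) he hek hs).2.1
    rw [exp_eq' k (by omega), ← fermat_eq, ← ord_eq] at h
    exact h

end Pool.Agent.Results.MP_a70bdc_nt.EvenPowerBases
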