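import Pool.Agent.Run7.h922.FL.Main

/-!
# Composite numbers `n ^ n + 1` with `n = 2 ^ (2 ^ k)` have very few Fermat liars

If `n ^ n + 1` is prime and `n ≥ 2` then `n = 2 ^ (2 ^ k)`.  For these `n` we show: if `n ^ n + 1` is
composite, then at most `3 (n ^ n + 1) / 2 ^ ((5 / 4) √(2 ^ k n))` residues `b` modulo `n ^ n + 1`
satisfy the congruence of Fermat `b ^ (n ^ n) = 1` (for a prime all residues but one do).  So Q1 is
equivalent to the existence of infinitely many `k` for which more residues satisfy it.  For other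
`n` nothing of this kind holds: `6 ^ 6 + 1 = 13 · 37 · 97` is a Carmichael number.

The theorem is the one of helper922 for the Fermat numbers (`MP_37e5fa_nt`, `FewLiars`), applied to
`n ^ n + 1 = F_{k + 2 ^ k}`.  Proof of that theorem (`Pool/Agent/Run7/h922/FL`): let `N = 2 ^ m`.  A prime
divisor of a composite `F_m` is `p = k 2 ^ e + 1` with `k ≥ 3` odd.  Write `N = q e + r` with `0 ≤ r < e`.
From `k 2 ^ e = -1` and `2 ^ N = -1` modulo `p` we get `k ^ q = ± 2 ^ r` modulo `p`, which is not an equality of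
integers, so `k ^ q > 2 ^ e` and `k ^ N > 2 ^ (e ^ 2)`.  With `log₂ k ≥ 25 / 16` this gives
`log₂ k ≥ (5 / 4) e / √N`.  The liars of `F_m` form a `2`-group of units modulo `F_m`, so their number is at
most `2 ^ E`, `E = ∑ e` over the prime factors, while `log₂ F_m ≥ ∑ (e + log₂ k)`.
-/

set_option autoImplicit false

namespace Pool.Agent.Results.MP_a70bdc_nt.FewLiars

/-- the number `n = 2 ^ (2 ^ k)` -/
def base (k : ℕ) : ℕ := 2 ^ (2 ^ k)

/-- the number of the residues `b` modulo `n ^ n + 1` with `b ^ (n ^ n) = 1` -/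
noncomputable def liars (n : ℕ) : ℕ := Nat.card {b : ZMod (n ^ n + 1) // b ^ (n ^ n) = 1}

theorem fermat_eq (k : ℕ) : base k ^ base k + 1 = Nat.fermatNumber (k + 2 ^ k) := by
  unfold base Nat.fermatNumber
  rw [← pow_mul, ← pow_add]

theorem pow_eq (k : ℕ) : base k ^ base k = 2 ^ (2 ^ (k + 2 ^ k)) := by
  unfold base
  rw [← pow_mul, ← pow_add]

theorem two_pow_eq (k : ℕ) : ((2 : ℝ) ^ (k + 2 ^ k)) = (2 : ℝ) ^ k * (base k : ℝ) := by
  unfold base
  push_cast
  rw [pow_add]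

/-- the values of `n` -/
theorem prime_iff_exists (n : ℕ) (hn : 2 ≤ n) (hp : (n ^ n + 1).Prime) : ∃ k, n = base k := by
  obtain ⟨m, hm⟩ := Nat.pow_of_pow_add_prime (by omega) (by omega) hp
  have hm0 : m ≠ 0 := by
    rintro rfl
    rw [pow_zero] at hm
    omega
  have h1 : n ^ n = 2 ^ (m * n) := by
    conv_lhs => rw [hm]
    rw [← pow_mul]
    congr 1
    rw [← hm]
  rw [h1] at hp
  obtain ⟨j, hj⟩ := Nat.pow_of_pow_add_prime (by norm_num) (by positivity) hp
  have h2 : m ∣ 2 ^ j := ⟨n, hj.symm⟩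
  obtain ⟨k, -, hk⟩ := (Nat.dvd_prime_pow Nat.prime_two).1 h2
  exact ⟨k, by rw [hm, hk]; rfl⟩

theorem base_injective : Function.Injective base := by
  intro a b h
  exact Nat.pow_right_injective le_rfl (Nat.pow_right_injective le_rfl h)

/-- **Few liars.**  Let `n = 2 ^ (2 ^ k)` and `B(k) = 3 (n ^ n + 1) / 2 ^ ((5 / 4) √(2 ^ k n))`.
(1) If `n ^ n + 1` is not prime then at most `B(k)` residues `b` modulo `n ^ n + 1` satisfy
`b ^ (n ^ n) = 1`.  (2) For `k ≥ 1`, `n ^ n + 1` is prime if and only if more than `B(k)` residues do.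
(3) There are infinitely many `n` for which `n ^ n + 1` is prime if and only if there are infinitely
many `k` for which more than `B(k)` residues do. -/
theorem result :
    (∀ k : ℕ, ¬ (base k ^ base k + 1).Prime →
      (liars (base k) : ℝ) ≤
        3 * ((base k : ℝ) ^ base k + 1) / (2 : ℝ) ^ ((5 / 4 : ℝ) * √((2 : ℝ) ^ k * (base k : ℝ)))) ∧
    (∀ k : ℕ, 1 ≤ k → ((base k ^ base k + 1).Prime ↔
      3 * ((base k : ℝ) ^ base k + 1) / (2 : ℝ) ^ ((5 / 4 : ℝ) * √((2 : ℝ) ^ k * (base k : ℝ))) <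
        (liars (base k) : ℝ))) ∧
    ({n : ℕ | (n ^ n + 1).Prime}.Infinite ↔
      {k : ℕ | 3 * ((base k : ℝ) ^ base k + 1) /
        (2 : ℝ) ^ ((5 / 4 : ℝ) * √((2 : ℝ) ^ k * (base k : ℝ))) < (liars (base k) : ℝ)}.Infinite) := by
  have hcast : ∀ k, ((Nat.fermatNumber (k + 2 ^ k) : ℕ) : ℝ) = (base k : ℝ) ^ base k + 1 := by
    intro k
    rw [← fermat_eq]
    push_cast
    rfl
  have hle : ∀ k, (liars (base k) : ℝ) ≤
      (Nat.card {b : ZMod (Nat.fermatNumber (k + 2 ^ k)) // b ^ (2 ^ (2 ^ (k + 2 ^ k))) = 1} : ℝ) ∧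
      (Nat.card {b : ZMod (Nat.fermatNumber (k + 2 ^ k)) // b ^ (2 ^ (2 ^ (k + 2 ^ k))) = 1} : ℝ) ≤
      (liars (base k) : ℝ) := by
    intro k
    unfold liars
    rw [pow_eq]
    exact ⟨le_rfl, le_rfl⟩
  have h1 : ∀ k : ℕ, ¬ (base k ^ base k + 1).Prime → (liars (base k) : ℝ) ≤
      3 * ((base k : ℝ) ^ base k + 1) /
        (2 : ℝ) ^ ((5 / 4 : ℝ) * √((2 : ℝ) ^ k * (base k : ℝ))) := by
    intro k hk
    rw [fermat_eq] at hk
    have hn0 : Nat.fermatNumber (k + 2 ^ k) ≠ 0 := by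
      have := Nat.three_le_fermatNumber (k + 2 ^ k)
      omega
    have h := H922.FL.main (k + 2 ^ k) hk
    rw [hcast, two_pow_eq] at h
    refine (hle k).1.trans (le_trans ?_ h)
    exact_mod_cast H922.FL.card_zmod_le (2 ^ (k + 2 ^ k)) _ hn0
  have h2 : ∀ k : ℕ, 1 ≤ k → ((base k ^ base k + 1).Prime ↔
      3 * ((base k : ℝ) ^ base k + 1) / (2 : ℝ) ^ ((5 / 4 : ℝ) * √((2 : ℝ) ^ k * (base k : ℝ))) <
        (liars (base k) : ℝ)) := by
    intro k hk
    refine ⟨fun hp => ?_, fun h => ?_⟩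
    · rw [fermat_eq] at hp
      have hk2 : 2 ≤ k + 2 ^ k := by
        have : 1 ≤ 2 ^ k := Nat.one_le_two_pow
        omega
      have h3 := H922.FL.bound_lt (k + 2 ^ k) hk2
      rw [hcast, two_pow_eq] at h3
      refine lt_of_lt_of_le h3 (le_trans ?_ (hle k).2)
      have h4 := H922.FL.card_ge _ hp
      have h5 : Nat.fermatNumber (k + 2 ^ k) - 1 = 2 ^ (2 ^ (k + 2 ^ k)) := by
        simp [Nat.fermatNumber]
      rw [h5] at h4 ⊢
      exact_mod_cast h4
    · by_contra hnp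
      exact absurd (h1 k hnp) (not_le.2 h)
  refine ⟨h1, h2, ?_⟩
  constructor
  · intro h
    have h3 : ({n : ℕ | (n ^ n + 1).Prime} \ (Set.Iio 4)).Infinite := h.sdiff (Set.finite_Iio 4)
    have h4 : ({n : ℕ | (n ^ n + 1).Prime} \ (Set.Iio 4)) ⊆ base ''
        {k : ℕ | 3 * ((base k : ℝ) ^ base k + 1) /
        (2 : ℝ) ^ ((5 / 4 : ℝ) * √((2 : ℝ) ^ k * (base k : ℝ))) < (liars (base k) : ℝ)} := by
      rintro n ⟨hn, hn4⟩
      rw [Set.mem_Iio, not_lt] at hn4
      obtain ⟨k, hk⟩ := prime_iff_exists n (by omega) hn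
      refine ⟨k, ?_, hk.symm⟩
      have hk1 : 1 ≤ k := by
        rcases Nat.eq_zero_or_pos k with h0 | h0
        · rw [h0] at hk
          unfold base at hk
          norm_num at hk
          omega
        · exact h0
      refine (h2 k hk1).1 ?_
      rw [← hk]
      exact hn
    exact (h3.mono h4).of_image _
  · intro h
    have h3 := h.sdiff (Set.finite_Iio 1)
    refine (h3.image base_injective.injOn).mono ?_
    rintro _ ⟨k, ⟨hk, hk1⟩, rfl⟩
    rw [Set.mem_Iio, not_lt] at hk1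
    exact (h2 k hk1).2 hk

end Pool.Agent.Results.MP_a70bdc_nt.FewLiars
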