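import Pool.Agent.Run7.h370.BaseTwo

/-!
# Multiples of the divisors of `n^n + 1` have many nonzero digits in base `n`

If `n ^ n + 1` is prime and `n ≥ 2`, then `n = 2 ^ (2 ^ k)`. Let `n` be of this form.

(1) Let `N = ∑_{i ∈ S} u_i n ^ i` with `s` terms and arbitrary integers `u_i`, not divisible by `n ^ n + 1`.
Then `gcd(n ^ n + 1, N) ≤ (∑ |u_i|) ^ (t ^ (s - 1)) * 2 ^ (2 ⌊2 ^ (k + 1) n / t⌋)` for every `t ≥ 1` with
`t ^ (s - 1) < 2 ^ (k + 1) n`.

(2) For every `δ > 0` there is `c > 0`, independent of `n`, such that for `|u_i| ≤ n` the inequality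
`gcd(n ^ n + 1, N) ≥ 2 ^ (δ log_2 (n ^ n))` implies `s ≥ c log n`.

(3) There is `c > 0` such that every positive multiple `N` of a divisor `d` of `n ^ n + 1` with
`d ^ 2 ≥ n ^ n + 1` has at least `c log n` nonzero digits in base `n`, except for the multiples of
`n ^ n + 1` itself (which may have two nonzero digits). In particular every proper divisor `d` of
`n ^ n + 1` with `d ^ 2 ≥ n ^ n + 1` has at least `c log n` nonzero digits in base `n`.

So if `n ^ n + 1` is composite, its large divisors cannot be found among the numbers with few nonzero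
digits in base `n`, although `n ^ n + 1` itself has only two nonzero digits.

The proof uses the theorem on the Fermat numbers `F_m = n ^ n + 1`, `m = k + 2 ^ k` (`Run7/h370/Fer`,
`MP_37e5fa_nt.SparseMultiples`): by Dirichlet's theorem one can multiply the exponents by some `q`,
coprime to the order of `2`, so that all of them become small modulo `2 ^ (m + 1)`; as `2` has a `q`-th
root modulo `F_m`, the resultant of `X ^ q - 2` and a sparse polynomial of small degree is divisible by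
the `gcd`, and it is not zero because `X ^ q - 2` is irreducible over the field of `2 ^ E`-th roots of unity.
-/

set_option autoImplicit false

namespace Pool.Agent.Results.MP_a70bdc_nt.SparseMultiples

open Run7.h370

/-- the numbers `n = 2 ^ (2 ^ k)`: the only `n ≥ 2` for which `n ^ n + 1` can be prime -/
def base (k : ℕ) : ℕ := 2 ^ (2 ^ k)

lemma base_pos (k : ℕ) : 0 < base k := by unfold base; positivity

lemma base_pow (k : ℕ) : ((base k : ℕ) : ℤ) ^ (base k) = ((2 : ℕ) : ℤ) ^ (2 ^ (k + 2 ^ k)) := by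
  unfold base
  push_cast
  rw [← pow_mul, pow_add 2 k (2 ^ k)]

lemma sum_eq (k : ℕ) (S : Finset ℕ) (u : ℕ → ℤ) :
    ∑ i ∈ S, u i * ((base k : ℕ) : ℤ) ^ i =
      ∑ j ∈ S.image (fun i => 2 ^ k * i), u (j / 2 ^ k) * ((2 : ℕ) : ℤ) ^ j := by
  rw [Finset.sum_image]
  · refine Finset.sum_congr rfl fun i _ => ?_
    rw [Nat.mul_div_cancel_left _ (by positivity)]
    unfold base
    push_cast
    rw [← pow_mul]
  · intro a _ b _ h
    exact Nat.eq_of_mul_eq_mul_left (by positivity) h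

lemma card_image (k : ℕ) (S : Finset ℕ) : (S.image (fun i => 2 ^ k * i)).card = S.card :=
  Finset.card_image_of_injective _ (fun a b h => Nat.eq_of_mul_eq_mul_left (by positivity) h)

lemma sum_abs (k : ℕ) (S : Finset ℕ) (u : ℕ → ℤ) :
    ∑ j ∈ S.image (fun i => 2 ^ k * i), |u (j / 2 ^ k)| = ∑ i ∈ S, |u i| := by
  rw [Finset.sum_image]
  · refine Finset.sum_congr rfl fun i _ => ?_
    rw [Nat.mul_div_cancel_left _ (by positivity)]
  · intro a _ b _ h
    exact Nat.eq_of_mul_eq_mul_left (by positivity) h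

lemma partA (k : ℕ) (S : Finset ℕ) (u : ℕ → ℤ) (t : ℕ) (ht : 0 < t)
    (hts : t ^ (S.card - 1) < 2 ^ (k + 1) * base k)
    (hnd : ¬ ((base k : ℕ) : ℤ) ^ (base k) + 1 ∣ ∑ i ∈ S, u i * ((base k : ℕ) : ℤ) ^ i) :
    (Int.gcd (((base k : ℕ) : ℤ) ^ (base k) + 1) (∑ i ∈ S, u i * ((base k : ℕ) : ℤ) ^ i) : ℤ) ≤
      (∑ i ∈ S, |u i|) ^ (t ^ (S.card - 1)) * 2 ^ (2 * (2 ^ (k + 1) * base k / t)) := by
  have e : 2 ^ (k + 1) * base k = 2 ^ (k + 2 ^ k + 1) := by
    unfold base
    rw [← pow_add]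
    congr 1
    ring
  rw [e] at hts ⊢
  have h := gcdFermat 2 Nat.prime_two.squarefree le_rfl (k + 2 ^ k) (S.image (fun i => 2 ^ k * i))
    (fun j => u (j / 2 ^ k)) t ht (by rw [card_image]; exact hts)
  rw [card_image, sum_abs, ← sum_eq, ← base_pow] at h
  exact h hnd

lemma abs_le_pow (k : ℕ) (S : Finset ℕ) (u : ℕ → ℤ) (hu : ∀ i ∈ S, |u i| ≤ base k) :
    ∀ j ∈ S.image (fun i => 2 ^ k * i), |u (j / 2 ^ k)| ≤ ((2 : ℕ) : ℤ) ^ (2 ^ k) := by
  intro j hj
  obtain ⟨i, hi, rfl⟩ := Finset.mem_image.1 hj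
  rw [Nat.mul_div_cancel_left _ (by positivity)]
  have h := hu i hi
  unfold base at h
  push_cast at h ⊢
  exact h

/-- log of the base -/
lemma log_base (k : ℕ) : Real.log (base k) = 2 ^ k * Real.log 2 := by
  unfold base
  push_cast
  rw [Real.log_pow]
  push_cast
  ring

lemma log_le (k : ℕ) : (2 ^ k - 1 : ℝ) * Real.log 2 ≤
    Real.log (((2 ^ (k + 2 ^ k + 1) : ℕ) : ℝ) / ((2 ^ k : ℕ) + 1)) := by
  have h2 : (0 : ℝ) < Real.log 2 := Real.log_pos (by norm_num)
  have hk : (1 : ℝ) ≤ 2 ^ k := one_le_pow₀ (by norm_num)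
  have h3 : Real.log ((2 : ℝ) ^ (2 ^ k)) ≤
      Real.log (((2 ^ (k + 2 ^ k + 1) : ℕ) : ℝ) / ((2 ^ k : ℕ) + 1)) := by
    apply Real.log_le_log (by positivity)
    rw [le_div_iff₀ (by positivity)]
    push_cast
    have e : (2 : ℝ) ^ (k + 2 ^ k + 1) = 2 ^ (2 ^ k) * (2 * 2 ^ k) := by
      rw [show k + 2 ^ k + 1 = 2 ^ k + (1 + k) by ring, pow_add, pow_add]
      ring
    rw [e]
    apply mul_le_mul_of_nonneg_left _ (by positivity)
    linarith
  rw [Real.log_pow] at h3
  refine le_trans ?_ h3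
  apply mul_le_mul_of_nonneg_right _ h2.le
  push_cast
  linarith

lemma partB (δ : ℝ) (hδ : 0 < δ) : ∃ c : ℝ, 0 < c ∧ ∀ (k : ℕ) (S : Finset ℕ) (u : ℕ → ℤ),
    (∀ i ∈ S, |u i| ≤ base k) →
    ¬ ((base k : ℕ) : ℤ) ^ (base k) + 1 ∣ ∑ i ∈ S, u i * ((base k : ℕ) : ℤ) ^ i →
    (base k : ℝ) ^ (δ * base k) ≤
      (Int.gcd (((base k : ℕ) : ℤ) ^ (base k) + 1) (∑ i ∈ S, u i * ((base k : ℕ) : ℤ) ^ i) : ℝ) →
    c * Real.log (base k) ≤ S.card := by
  obtain ⟨c, hc0, hc⟩ := asymGcd 2 le_rfl (δ / 2) (by positivity)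
  refine ⟨min (c / 2) 1, by positivity, fun k S u hu hnd hbig => ?_⟩
  have hS : 1 ≤ S.card := by
    by_contra h
    have h0 : S = ∅ := by
      rw [← Finset.card_eq_zero]
      omega
    subst h0
    simp at hnd
  have hbig' : ((2 : ℕ) : ℝ) ^ (δ / 2 * ((2 ^ (k + 2 ^ k + 1) : ℕ) : ℝ)) ≤
      (Int.gcd (((base k : ℕ) : ℤ) ^ (base k) + 1) (∑ i ∈ S, u i * ((base k : ℕ) : ℤ) ^ i) : ℝ) := by
    refine le_trans (le_of_eq ?_) hbig
    have e : (base k : ℝ) = (2 : ℝ) ^ ((2 ^ k : ℕ) : ℝ) := by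
      unfold base
      push_cast
      rw [← Real.rpow_natCast]
      push_cast
      rfl
    have e2 : (base k : ℝ) ^ (δ * base k) = (2 : ℝ) ^ (((2 ^ k : ℕ) : ℝ) * (δ * base k)) := by
      have e3 := (Real.rpow_mul (x := 2) (by norm_num) ((2 ^ k : ℕ) : ℝ) (δ * base k))
      rw [e3, ← e]
    rw [e2]
    push_cast
    congr 1
    unfold base
    push_cast
    rw [show k + 2 ^ k + 1 = k + (2 ^ k + 1) by ring, pow_add (2 : ℝ) k, pow_add (2 : ℝ) (2 ^ k)]
    ring
  have h1 := hc (2 ^ (k + 2 ^ k + 1)) (((base k : ℕ) : ℤ) ^ (base k) + 1) (by positivity)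
    (S.image (fun i => 2 ^ k * i)) (fun j => u (j / 2 ^ k)) (2 ^ k) (abs_le_pow k S u hu)
    (by rw [← sum_eq]; exact hnd) (by rw [← sum_eq]; exact hbig') (by
      intro t ht hts
      rw [card_image] at hts ⊢
      rw [← sum_eq, sum_abs]
      have e : 2 ^ (k + 1) * base k = 2 ^ (k + 2 ^ k + 1) := by
        unfold base
        rw [← pow_add]
        congr 1
        ring
      have := partA k S u t ht (by rw [e]; exact hts) hnd
      rw [e] at this
      exact this)
  rw [card_image] at h1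
  have h2 := log_le k
  have h3 : c * ((2 ^ k - 1 : ℝ) * Real.log 2) ≤ S.card := by
    refine le_trans (mul_le_mul_of_nonneg_left h2 hc0.le) ?_
    exact_mod_cast h1
  rw [log_base]
  have hl : (0 : ℝ) < Real.log 2 := Real.log_pos (by norm_num)
  have hl1 : Real.log 2 ≤ 1 := by linarith [Real.log_two_lt_d9]
  have hS' : (1 : ℝ) ≤ S.card := by exact_mod_cast hS
  rcases Nat.eq_zero_or_pos k with rfl | hk
  · have : min (c / 2) 1 ≤ 1 := min_le_right _ _
    have h0 : (0 : ℝ) < min (c / 2) 1 := by positivity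
    calc min (c / 2) 1 * (2 ^ 0 * Real.log 2) ≤ 1 * (1 * 1) := by
          apply mul_le_mul this _ (by positivity) (by norm_num)
          simpa using hl1
      _ ≤ S.card := by linarith
  · have hk2 : (2 : ℝ) ≤ 2 ^ k := by
      calc (2 : ℝ) = 2 ^ 1 := by norm_num
        _ ≤ 2 ^ k := pow_le_pow_right₀ (by norm_num) hk
    have h4 : min (c / 2) 1 ≤ c / 2 := min_le_left _ _
    calc min (c / 2) 1 * (2 ^ k * Real.log 2) ≤ c / 2 * (2 ^ k * Real.log 2) :=
          mul_le_mul_of_nonneg_right h4 (by positivity)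
      _ ≤ c * ((2 ^ k - 1 : ℝ) * Real.log 2) := by
          have : c / 2 * (2 ^ k * Real.log 2) = c * ((2 ^ k / 2 : ℝ) * Real.log 2) := by ring
          rw [this]
          apply mul_le_mul_of_nonneg_left _ hc0.le
          apply mul_le_mul_of_nonneg_right _ hl.le
          linarith
      _ ≤ S.card := h3

/-- the digits of a list as a sum over the places of the nonzero ones -/
lemma exists_places (b : ℕ) (L : List ℕ) : ∃ (S : Finset ℕ) (u : ℕ → ℤ),
    (∀ i ∈ S, ∃ a ∈ L, u i = (a : ℤ)) ∧ S.card = (L.filter (fun x => x ≠ 0)).length ∧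
      ∑ i ∈ S, u i * (b : ℤ) ^ i = (Nat.ofDigits b L : ℕ) := by
  induction L with
  | nil => exact ⟨∅, fun _ => 0, by simp, by simp, by simp⟩
  | cons a L ih =>
    obtain ⟨S, u, h1, h2, h3⟩ := ih
    have key : ∑ i ∈ S.image Nat.succ, u (i - 1) * (b : ℤ) ^ i = b * (Nat.ofDigits b L : ℕ) := by
      rw [Finset.sum_image (fun x _ y _ h => Nat.succ_injective h), ← h3, Finset.mul_sum]
      refine Finset.sum_congr rfl fun i _ => ?_
      rw [Nat.succ_sub_one, Nat.succ_eq_add_one, pow_succ]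
      ring
    have hcard : (S.image Nat.succ).card = S.card := Finset.card_image_of_injective _ Nat.succ_injective
    have h0 : (0 : ℕ) ∉ S.image Nat.succ := by simp
    by_cases ha : a = 0
    · refine ⟨S.image Nat.succ, fun i => u (i - 1), fun i hi => ?_, ?_, ?_⟩
      · obtain ⟨j, hj, rfl⟩ := Finset.mem_image.1 hi
        obtain ⟨c, hc, hc2⟩ := h1 j hj
        exact ⟨c, List.mem_cons_of_mem _ hc, by simpa using hc2⟩
      · rw [hcard, h2]
        simp [ha]
      · rw [key, Nat.ofDigits_cons, ha]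
        push_cast
        ring
    · refine ⟨insert 0 (S.image Nat.succ), fun i => if i = 0 then (a : ℤ) else u (i - 1),
        fun i hi => ?_, ?_, ?_⟩
      · rcases Finset.mem_insert.1 hi with rfl | hi
        · exact ⟨a, by simp, by simp⟩
        · obtain ⟨j, hj, rfl⟩ := Finset.mem_image.1 hi
          obtain ⟨c, hc, hc2⟩ := h1 j hj
          exact ⟨c, List.mem_cons_of_mem _ hc, by simpa using hc2⟩
      · rw [Finset.card_insert_of_notMem h0, hcard, h2]
        simp [ha]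
      · rw [Finset.sum_insert h0]
        have : ∑ i ∈ S.image Nat.succ, (if i = 0 then (a : ℤ) else u (i - 1)) * (b : ℤ) ^ i =
            ∑ i ∈ S.image Nat.succ, u (i - 1) * (b : ℤ) ^ i := by
          refine Finset.sum_congr rfl fun i hi => ?_
          rw [if_neg]
          rintro rfl
          exact h0 hi
        rw [this, key, Nat.ofDigits_cons]
        push_cast
        simp

/-- **Multiples of divisors of `n ^ n + 1` have many nonzero digits in base `n`.** -/
theorem result :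
    -- arbitrary coefficients
    (∀ (k : ℕ) (S : Finset ℕ) (u : ℕ → ℤ) (t : ℕ), 0 < t →
      t ^ (S.card - 1) < 2 ^ (k + 1) * base k →
      ¬ ((base k : ℕ) : ℤ) ^ (base k) + 1 ∣ ∑ i ∈ S, u i * ((base k : ℕ) : ℤ) ^ i →
      (Int.gcd (((base k : ℕ) : ℤ) ^ (base k) + 1) (∑ i ∈ S, u i * ((base k : ℕ) : ℤ) ^ i) : ℤ) ≤
        (∑ i ∈ S, |u i|) ^ (t ^ (S.card - 1)) * 2 ^ (2 * (2 ^ (k + 1) * base k / t))) ∧
    -- large common divisors
    (∀ δ : ℝ, 0 < δ → ∃ c : ℝ, 0 < c ∧ ∀ (k : ℕ) (S : Finset ℕ) (u : ℕ → ℤ),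
      (∀ i ∈ S, |u i| ≤ base k) →
      ¬ ((base k : ℕ) : ℤ) ^ (base k) + 1 ∣ ∑ i ∈ S, u i * ((base k : ℕ) : ℤ) ^ i →
      (base k : ℝ) ^ (δ * base k) ≤
        (Int.gcd (((base k : ℕ) : ℤ) ^ (base k) + 1) (∑ i ∈ S, u i * ((base k : ℕ) : ℤ) ^ i) : ℝ) →
      c * Real.log (base k) ≤ S.card) ∧
    -- the digits of the multiples of large divisors
    (∃ c : ℝ, 0 < c ∧ ∀ k d N : ℕ, d ∣ (base k) ^ (base k) + 1 → (base k) ^ (base k) + 1 ≤ d ^ 2 →
      d ∣ N → ¬ (base k) ^ (base k) + 1 ∣ N →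
      c * Real.log (base k) ≤
        (((Nat.digits (base k) N).filter (fun x => x ≠ 0)).length : ℝ)) := by
  refine ⟨partA, partB, ?_⟩
  obtain ⟨c, hc0, hc⟩ := partB (1 / 2) (by norm_num)
  refine ⟨c, hc0, fun k d N hd hd2 hdN hN => ?_⟩
  obtain ⟨S, u, h1, h2, h3⟩ := exists_places (base k) (Nat.digits (base k) N)
  rw [Nat.ofDigits_digits] at h3
  rw [← h2]
  have hb2 : 1 < base k := by
    unfold base
    exact Nat.one_lt_pow (by positivity) (by norm_num)
  have hcast : ((base k : ℕ) : ℤ) ^ (base k) + 1 = (((base k) ^ (base k) + 1 : ℕ) : ℤ) := by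
    push_cast
    ring
  refine hc k S u (fun i hi => ?_) ?_ ?_
  · obtain ⟨a, ha, hua⟩ := h1 i hi
    have := Nat.digits_lt_base hb2 ha
    rw [hua, Nat.abs_cast]
    exact_mod_cast this.le
  · rw [h3, hcast, Int.natCast_dvd_natCast]
    exact hN
  · rw [h3, hcast]
    have hg : d ≤ Int.gcd (((base k) ^ (base k) + 1 : ℕ) : ℤ) (N : ℤ) := by
      rw [Int.gcd_natCast_natCast]
      exact Nat.le_of_dvd (Nat.gcd_pos_of_pos_left _ (Nat.succ_pos _)) (Nat.dvd_gcd hd hdN)
    have hg' : (d : ℝ) ≤ (Int.gcd (((base k) ^ (base k) + 1 : ℕ) : ℤ) (N : ℤ) : ℝ) := by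
      exact_mod_cast hg
    refine le_trans ?_ hg'
    have hb0 : (0 : ℝ) < base k := by exact_mod_cast base_pos k
    have h5 : ((base k : ℝ) ^ (1 / 2 * (base k : ℝ))) ^ 2 = (base k : ℝ) ^ (base k) := by
      rw [← Real.rpow_natCast, ← Real.rpow_mul hb0.le, ← Real.rpow_natCast]
      congr 1
      push_cast
      ring
    have h6 : ((base k : ℝ) ^ (1 / 2 * (base k : ℝ))) ^ 2 ≤ (d : ℝ) ^ 2 := by
      rw [h5]
      have : ((base k) ^ (base k) + 1 : ℝ) ≤ (d : ℝ) ^ 2 := by exact_mod_cast hd2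
      linarith
    exact (pow_le_pow_iff_left₀ (Real.rpow_nonneg hb0.le _) (Nat.cast_nonneg _) two_ne_zero).1 h6

end Pool.Agent.Results.MP_a70bdc_nt.SparseMultiples
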